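import Pool.Agent.H90.LC.Targets

/-!
# The critical scale of the least coordinate: definitions and statements of the modules
-/

set_option autoImplicit false

namespace Pool.Agent.H90.CS

open Finset Pool.Agent.H44.MS Pool.Agent.H90.LC

/-! ## Definitions -/

/-- `n = x₁ ^ 2 + x₂ ^ 2 + x₃ ^ 2` for some integers with `|x₃| ≤ B`. -/
def Sm (n : ℕ) (B : ℝ) : Prop :=
  ∃ x₁ x₂ x₃ : ℤ, x₁ ^ 2 + x₂ ^ 2 + x₃ ^ 2 = (n : ℤ) ∧ |(x₃ : ℝ)| ≤ B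

/-- The admissible integers. -/
def Adm (n : ℕ) : Prop := Odd n ∧ Squarefree n ∧ n % 8 ≠ 7

/-- All prime factors of `m` are `1 mod 4` and larger than `R`. -/
def Gd (R m : ℕ) : Prop := ∀ p : ℕ, p.Prime → p ∣ m → p % 4 = 1 ∧ R < p

/-- The integers `m ≤ N` with `Gd R m`. -/
noncomputable def GF (R N : ℕ) : Finset ℕ := by
  classical exact (Icc 1 N).filter (fun m => Gd R m)

/-- The product over the primes `1 mod 4` up to `R`. -/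
noncomputable def VR (R : ℕ) : ℝ :=
  ∏ p ∈ (Icc 1 R).filter (fun p => p.Prime ∧ p % 4 = 1), (1 - 1 / (p : ℝ))

/-- Twice the product of the primes up to `R`. -/
def WR (R : ℕ) : ℕ := 2 * ∏ p ∈ (Icc 1 R).filter Nat.Prime, p

/-- The survivors: the odd `x ≤ B` such that no prime `p ∈ P3 y` divides `4 x ^ 2 - 1` exactly
once. -/
noncomputable def SV (y B : ℕ) : Finset ℕ := by
  classical exact (Icc 1 B).filter (fun x => x % 2 = 1 ∧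
    ∀ p ∈ P3 y, p ∣ (2 * x - 1) * (2 * x + 1) → p ^ 2 ∣ (2 * x - 1) * (2 * x + 1))

/-- The modulus. -/
def M2 (y : ℕ) : ℕ := 8 * ∏ p ∈ P3 y, p ^ 2

/-- The sums of two squares up to `N` in the class of `b`. -/
noncomputable def TS (y N b : ℕ) : Finset ℕ := by
  classical exact (Icc 0 N).filter (fun m => m ≡ b [MOD M2 y] ∧ ∃ u v : ℕ, m = u ^ 2 + v ^ 2)

/-- The small representations. -/
noncomputable def SmF (N : ℕ) (lam : ℝ) : Finset ℕ := by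
  classical exact (range N).filter (fun n => Sm n (lam * √(Real.log n)))

/-- The admissible numbers with small representations. -/
noncomputable def AsF (N : ℕ) (lam : ℝ) : Finset ℕ := by
  classical exact (range N).filter (fun n => Adm n ∧ Sm n (lam * √(Real.log n)))

/-- The admissible numbers without small representations. -/
noncomputable def AnF (N : ℕ) (lam : ℝ) : Finset ℕ := by
  classical exact (range N).filter (fun n => Adm n ∧ ¬ Sm n (lam * √(Real.log n)))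

/-! ## Numbers composed of primes `1 mod 4` -/

/-- TH1. Chebyshev's lower bound for the primes `1 mod 4`. -/
def T_TH1 : Prop := ∃ c : ℝ, 0 < c ∧ ∀ R : ℕ, ∃ Y : ℕ, ∀ X : ℕ, Y ≤ X →
  c * X ≤ ∑ p ∈ (Ioc R X).filter (fun p => p.Prime ∧ p % 4 = 1), Real.log p

/-- REC. The sum of the reciprocals. -/
def T_REC : Prop := ∃ c : ℝ, 0 < c ∧ ∀ R X : ℕ, 2 ≤ X →
  c * VR R * √(Real.log X) ≤ ∑ m ∈ GF R X, 1 / (m : ℝ)

/-- GLO. The lower bound for the number. -/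
def T_GLO : Prop := ∃ c : ℝ, 0 < c ∧ ∀ R : ℕ, ∃ N₀ : ℕ, ∀ N : ℕ, N₀ ≤ N →
  c * VR R * N / √(Real.log N) ≤ (GF R N).card

/-- GAP. The upper bound in the class of a square of a prime. -/
def T_GAP : Prop := ∃ C : ℝ, 0 < C ∧ ∀ R : ℕ, 2 ≤ R → ∃ N₀ : ℕ, ∀ N q r : ℕ, N₀ ≤ N →
  q.Prime → q ^ 8 ≤ N →
  (((GF R N).filter (fun m => q ^ 2 ∣ m + r)).card : ℝ) ≤
    C * VR R * (N / (q : ℝ) ^ 2) / √(Real.log N)

/-- GPR. The upper bound for pairs. -/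
def T_GPR : Prop := ∃ C : ℝ, 0 < C ∧ ∃ N₀ : ℕ, ∀ N R h : ℕ, N₀ ≤ N → 1 ≤ h →
  (((GF R N).filter (fun m => m + h ∈ GF R (N + h))).card : ℝ) ≤ C * N * hp h / Real.log N

/-- HPS. The average of the local factor. -/
def T_HPS : Prop := ∃ C : ℝ, 0 < C ∧ ∀ T : ℕ,
  ∑ t ∈ Icc 1 T, ∑ s ∈ Icc 1 (t - 1), hp (t ^ 2 - s ^ 2) ≤ C * (T : ℝ) ^ 2

/-- SQT. The number of the squarefree shifts. -/
def T_SQT : Prop := ∃ c : ℝ, 0 < c ∧ ∃ R : ℕ, 2 ≤ R ∧ ∃ N₀ : ℕ, ∀ N x : ℕ, N₀ ≤ N →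
  WR R ∣ x → x ^ 2 ≤ N →
  c * N / √(Real.log N) ≤ (((GF R N).filter (fun m => Squarefree (m + x ^ 2))).card : ℝ)

/-- BON. Bonferroni's inequality. -/
def T_BON : Prop := ∀ (T : ℕ) (A : ℕ → Finset ℕ),
  ∑ t ∈ Icc 1 T, (A t).card ≤ ((Icc 1 T).biUnion A).card +
    ∑ t ∈ Icc 1 T, ∑ s ∈ Icc 1 (t - 1), (A t ∩ A s).card

/-- POS. Many admissible numbers with small representations. -/
def T_POS : Prop := ∃ c : ℝ, 0 < c ∧ ∀ lam : ℝ, 0 < lam → lam ≤ 1 → ∃ N₀ : ℕ, ∀ N : ℕ, N₀ ≤ N →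
  c * lam * N ≤ (AsF N lam).card

/-- UPB. The upper bound. -/
def T_UPB : Prop := ∃ C : ℝ, 0 < C ∧ ∀ lam : ℝ, 0 < lam → ∃ N₀ : ℕ, ∀ N : ℕ,
  N₀ ≤ N → ((SmF N lam).card : ℝ) ≤ C * lam * N

/-! ## Numbers without small representations -/

/-- SVD. The density of the survivors. -/
def T_SVD : Prop := ∃ C : ℝ, 0 < C ∧ ∀ y : ℕ, 3 ≤ y → ∃ D : ℝ, 0 < D ∧ ∀ B : ℕ,
  ((SV y B).card : ℝ) ≤ C * B / Real.log y + D

/-- TSQ. Sums of two squares in arithmetic progressions. -/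
def T_TSQ : Prop := ∃ C : ℝ, 0 < C ∧ ∀ y : ℕ, 3 ≤ y → ∃ N₀ : ℕ, ∀ N b : ℕ, N₀ ≤ N →
  ((TS y N b).card : ℝ) ≤ C * √(Real.log y) * N / (M2 y * √(Real.log N))

/-- CLA. The class. -/
def T_CLA : Prop := ∀ y : ℕ, 3 ≤ y → 6 ∣ M2 y ∧ 0 < M2 y ∧ ∃ a : ℕ, ∀ n : ℕ, n ≡ a [MOD M2 y] →
  n % 8 = 3 ∧ (∀ p ∈ P3 y, 4 * n ≡ 1 [MOD p ^ 2]) ∧
    ∀ p : ℕ, p.Prime → p ∣ M2 y → ¬ p ^ 2 ∣ n

/-- KI2. The small coordinate is a survivor. -/
def T_KI2 : Prop := ∀ y n B : ℕ, n % 8 = 3 → (∀ p ∈ P3 y, 4 * n ≡ 1 [MOD p ^ 2]) →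
  ∀ x₁ x₂ x₃ : ℤ, x₁ ^ 2 + x₂ ^ 2 + x₃ ^ 2 = n → x₃.natAbs ≤ B → x₃.natAbs ∈ SV y B

/-- NEG. Many admissible numbers without small representations. -/
def T_NEG : Prop := ∀ lam : ℝ, 0 < lam → ∃ δ : ℝ, 0 < δ ∧ ∃ N₀ : ℕ, ∀ N : ℕ, N₀ ≤ N →
  δ * N ≤ (AnF N lam).card

end Pool.Agent.H90.CS
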